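import Mathlib
import Pool.Agent.PPS.Defs

/-!
# The class `NP`
-/

namespace Pool.Agent.H64.Cook

open Pool.Agent.PPS

/-- The pair of the words `x` and `y` as a word: every bit of `x` is preceded by `true`, then
follow `false` and `y`. -/
def pairW (x y : List Bool) : List Bool := x.flatMap (fun b => [true, b]) ++ false :: y

/-- `NP`: the languages `L` for which there are a polynomial `q` and a language `V` decided in
polynomial time such that `x ∈ L` iff `(x, y) ∈ V` for some word `y` of length `q |x|`. -/
def NP : Set (Set (List Bool)) :=
  {L | ∃ V ∈ P, ∃ q : Polynomial ℕ, ∀ x, x ∈ L ↔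
    ∃ y : List Bool, y.length = q.eval x.length ∧ pairW x y ∈ V}

end Pool.Agent.H64.Cook
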