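import Pool.Agent.PPS.Bridge
import Pool.Agent.PPS.Codes

/-!
# More polynomial-time list functions
-/

namespace Pool.Agent.H64.Cook

open Pool.Agent.PPS

variable {m : Bool} {α β γ δ σ τ : Type} [Rep α] [Rep β] [Rep γ] [Rep δ] [Rep σ] [Rep τ]

@[fun_prop]
theorem PT.range' {n : α → ℕ} (hn : PT m n) : PT m (fun a => List.range (n a)) := by
  obtain ⟨p, hp⟩ := hn.exists_size_le
  have hit : ∀ (k : ℕ), (fun y : List ℕ => y.length :: y)^[k] [] = (List.range k).reverse := by
    intro k
    induction k with
    | zero => rfl
    | succ k ih =>
      rw [Function.iterate_succ_apply', ih, List.range_succ]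
      simp
  have hs : PT m (fun z : α × List ℕ => z.2.length :: z.2) := by fun_prop
  have := (PT.iterate (m := m) (s := fun z : α × List ℕ => z.2.length :: z.2)
    (ini := fun _ => []) hn (by fun_prop) hs (p * (2 * p + 1 + 1) + 1) (by
      intro a k hk
      simp only
      rw [hit, size_reverse]
      have h2 := hp a
      rw [size_nat] at h2
      have h1 : ∀ c ∈ List.range k, size c ≤ 2 * p.eval (size a) + 1 := by
        intro c hc
        rw [List.mem_range] at hc
        rw [size_nat]
        omega
      refine (size_list_le h1).trans ?_
      simp only [Polynomial.eval_add, Polynomial.eval_mul, Polynomial.eval_one,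
        List.length_range, Polynomial.eval_ofNat]
      have := Nat.mul_le_mul_right (2 * p.eval (size a) + 1 + 1) (show k ≤ p.eval (size a) by omega)
      omega)).reverse'
  convert this using 2 with a
  rw [hit, List.reverse_reverse]

theorem size_flatten_le (l : List (List β)) : size l.flatten ≤ size l := by
  induction l with
  | nil => simp [size_nil]
  | cons b l ih =>
    rw [List.flatten_cons, size_cons]
    have := size_append b l.flatten
    omega

theorem size_flatten_drop (l : List (List β)) (k : ℕ) : size (l.drop k).flatten ≤ size l :=
  (size_flatten_le _).trans (size_drop_le _ _)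

@[fun_prop]
theorem PT.flatten' {l : α → List (List β)} (hl : PT m l) :
    PT m (fun a => (l a).flatten) := by
  obtain ⟨p, hp⟩ := hl.exists_size_le
  have hf : ∀ l : List (List β), l.foldr (fun b y => b ++ y) [] = l.flatten := by
    intro l
    induction l with
    | nil => rfl
    | cons b l ih => rw [List.foldr_cons, ih, List.flatten_cons]
  have := PT.foldr (m := m) (s := fun z : α × (List β × List β) => z.2.1 ++ z.2.2)
    (ini := fun _ => []) hl (by fun_prop) (by fun_prop) p (by
      intro a k
      simp only
      rw [hf]
      exact (size_flatten_drop _ _).trans (hp a))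
  convert this using 2 with a
  rw [hf]

theorem PT.flatMap' {l : α → List β} {f : α × β → List γ} (hl : PT m l) (hf : PT m f) :
    PT m (fun a => (l a).flatMap (fun b => f (a, b))) := by
  have := PT.flatten' (PT.map' hl hf)
  convert this using 2 with a
  rw [List.flatMap_def]

theorem PT.filter' {l : α → List β} {f : α × β → Bool} (hl : PT m l) (hf : PT m f) :
    PT m (fun a => (l a).filter (fun b => f (a, b))) := by
  have h : PT m (fun z : α × β => bif f z then [z.2] else []) := by fun_prop
  have := PT.flatMap' hl h
  convert this using 2 with a
  generalize l a = l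
  induction l with
  | nil => rfl
  | cons b l ih =>
    rw [List.flatMap_cons, List.filter_cons, ih]
    cases f (a, b) <;> simp

theorem PT.all' {l : α → List β} {f : α × β → Bool} (hl : PT m l) (hf : PT m f) :
    PT m (fun a => (l a).all (fun b => f (a, b))) := by
  have h1 : PT m (fun z : α × β => !(f z)) := by fun_prop
  have h2 := PT.filter' hl h1
  have h3 : PT m (fun a => decide (((l a).filter (fun b => !(f (a, b)))).length = 0)) := by
    fun_prop
  convert h3 using 2 with a
  rw [Bool.eq_iff_iff]
  simp only [List.all_eq_true, decide_eq_true_eq, List.length_eq_zero_iff, List.filter_eq_nil_iff,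
    Bool.not_eq_true', Bool.not_eq_false]

theorem PT.any' {l : α → List β} {f : α × β → Bool} (hl : PT m l) (hf : PT m f) :
    PT m (fun a => (l a).any (fun b => f (a, b))) := by
  have h2 := PT.filter' hl hf
  have h3 : PT m (fun a => !(decide (((l a).filter (fun b => f (a, b))).length = 0))) := by
    fun_prop
  convert h3 using 2 with a
  rw [Bool.eq_iff_iff]
  simp only [List.any_eq_true, Bool.not_eq_true', decide_eq_false_iff_not,
    List.length_eq_zero_iff, List.filter_eq_nil_iff, not_forall, not_not, exists_prop]

/-- A fixed finite family of functions. -/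
theorem PT.flatMapConst {κ : Type} (l : List κ) {f : κ → α → List β} (h : ∀ k, PT m (f k)) :
    PT m (fun a => l.flatMap (fun k => f k a)) := by
  induction l with
  | nil => exact PT.const' []
  | cons k l ih =>
    have h1 := (h k).append' ih
    exact h1

/-- Membership in a list. -/
theorem PT.mem' [DecidableEq β] {l : α → List β} {f : α → β} (hl : PT m l) (hf : PT m f) :
    PT m (fun a => decide (f a ∈ l a)) := by
  have h : PT m (fun z : α × β => decide (z.2 = f z.1)) := by fun_prop
  have := PT.any' hl h
  convert this using 2 with a
  rw [Bool.eq_iff_iff]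
  simp

end Pool.Agent.H64.Cook
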