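import Pool.Agent.H64.Cook.Defs
import Pool.Agent.H64.Cook.PTX

/-!
# Membership in `NP` by a verifier; `P ⊆ NP`
-/

namespace Pool.Agent.H64.Cook

open Pool.Agent.PPS

/-- One step of the unpairing: move a bit of the first component. -/
def unStep (z : List Bool × List Bool) : List Bool × List Bool :=
  bif z.2.headD false then ((z.2.tail.headD false) :: z.1, z.2.tail.tail) else z

/-- The components of a pair. -/
def unpairW (w : List Bool) : List Bool × List Bool :=
  ((unStep^[w.length] ([], w)).1.reverse, (unStep^[w.length] ([], w)).2.tail)

theorem unStep_pair (x a y : List Bool) :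
    unStep^[x.length] (a, pairW x y) = (x.reverse ++ a, false :: y) := by
  induction x generalizing a with
  | nil => rfl
  | cons b x ih =>
    rw [List.length_cons, Function.iterate_succ_apply]
    have : unStep (a, pairW (b :: x) y) = (b :: a, pairW x y) := by
      simp [unStep, pairW]
    rw [this, ih]
    simp

theorem unStep_fix (k : ℕ) (a y : List Bool) :
    unStep^[k] (a, false :: y) = (a, false :: y) := by
  induction k with
  | zero => rfl
  | succ k ih =>
    rw [Function.iterate_succ_apply]
    exact ih

theorem unpairW_pairW (x y : List Bool) : unpairW (pairW x y) = (x, y) := by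
  have hl : x.length ≤ (pairW x y).length := by
    simp only [pairW, List.length_append, List.length_flatMap, List.length_cons]
    have : (x.map fun _ => 2).sum = 2 * x.length := by simp [mul_comm]
    simp
    omega
  have h : unStep^[(pairW x y).length] ([], pairW x y) = (x.reverse, false :: y) := by
    obtain ⟨k, hk⟩ := Nat.exists_eq_add_of_le' hl
    rw [hk, Function.iterate_add_apply, unStep_pair, unStep_fix, List.append_nil]
  rw [unpairW, h]
  simp

theorem length_unStep (k : ℕ) (z : List Bool × List Bool) :
    (unStep^[k] z).1.length + (unStep^[k] z).2.length ≤ z.1.length + z.2.length := by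
  induction k generalizing z with
  | zero => simp
  | succ k ih =>
    rw [Function.iterate_succ_apply]
    refine (ih _).trans ?_
    obtain ⟨a, l⟩ := z
    rcases l with _ | ⟨b, _ | ⟨c, l⟩⟩
    · simp [unStep]
    · cases b <;> simp [unStep]
    · cases b <;> simp [unStep]; omega

variable {m : Bool} {α : Type} [Rep α]

@[fun_prop]
theorem PT.unpairW' {w : α → List Bool} (hw : PT m w) : PT m (fun a => unpairW (w a)) := by
  have hst : PT m (fun z : List Bool × (List Bool × List Bool) => unStep z.2) := by
    unfold unStep
    fun_prop
  have key : PT m (fun w : List Bool => unStep^[w.length] ([], w)) := by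
    refine PT.iterate (m := m) (α := List Bool) (s := fun z => unStep z.2)
      (ini := fun w => ([], w)) (n := fun w => w.length)
      (by fun_prop) (by fun_prop) hst (20 * Polynomial.X + 20) ?_
    intro w k hk
    have e : (fun y => unStep ((w, y) : List Bool × (List Bool × List Bool)).2) = unStep := rfl
    simp only
    rw [e]
    have h := length_unStep k ([], w)
    generalize unStep^[k] ([], w) = s at h ⊢
    obtain ⟨x, y⟩ := s
    simp only [List.length_nil, zero_add] at h
    rw [size_pair]
    have l1 := size_le_length x
    have l2 := size_le_length y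
    have l3 := length_le_size' w
    simp only [Polynomial.eval_add, Polynomial.eval_mul, Polynomial.eval_X,
      Polynomial.eval_ofNat] at *
    omega
  unfold unpairW
  have := key.comp' hw
  fun_prop

/-- A verifier puts a language in `NP`. -/
theorem mem_NP_of {L : Set (List Bool)} {c : List Bool × List Bool → Bool} (hc : PT true c)
    (q : Polynomial ℕ)
    (h1 : ∀ x ∈ L, ∃ y : List Bool, y.length < q.eval x.length ∧ c (x, y) = true)
    (h2 : ∀ x y, c (x, y) = true → x ∈ L) : L ∈ NP := by
  classical
  refine ⟨{z | c ((unpairW z).1, unpad (unpairW z).2) = true}, ?_, q, ?_⟩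
  · rw [mem_P_iff]
    have h3 : PT true (fun z => unpairW z) := PT.unpairW' PT.id
    have h : PT true (fun z => c ((unpairW z).1, unpad (unpairW z).2)) :=
      hc.comp' (PT.prodMk (PT.fst' h3) (PT.unpad' (PT.snd' h3)))
    convert h using 2 with z
    simp
  · intro x
    constructor
    · intro hx
      obtain ⟨y, hy, hcy⟩ := h1 x hx
      refine ⟨padTo (q.eval x.length) y, length_padTo hy, ?_⟩
      simp only [Set.mem_ofPred_eq, unpairW_pairW, unpad_padTo]
      exact hcy
    · rintro ⟨y, -, hy⟩
      simp only [Set.mem_ofPred_eq, unpairW_pairW] at hy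
      exact h2 _ _ hy

theorem P_subset_NP : P ⊆ NP := by
  classical
  intro L hL
  rw [mem_P_iff] at hL
  refine mem_NP_of (c := fun z => decide (z.1 ∈ L)) (hL.comp' (by fun_prop)) 1 ?_ ?_
  · intro x hx
    exact ⟨[], by simp, by simpa using hx⟩
  · intro x y h
    simpa using h

end Pool.Agent.H64.Cook
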