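import Pool.Agent.H64.Cook.PTX

/-!
# Satisfiability, and the tableau of a flow chart
-/

namespace Pool.Agent.H64.Cook

open Pool.Agent.PPS

/-- The clause `C` (a list of literals `(b, v)`, true iff `σ v = b`) holds under `σ`. -/
def Holds {V : Type} (σ : V → Bool) (C : List (Bool × V)) : Prop := ∃ l ∈ C, σ l.2 = l.1

/-- Satisfiability of a formula in conjunctive normal form (a list of clauses). -/
def Sat {V : Type} (φ : List (List (Bool × V))) : Prop :=
  ∃ σ : V → Bool, ∀ C ∈ φ, Holds σ C

/-- Variables of the tableau. -/
abbrev Vr := ℕ × (ℕ × (ℕ × ℕ))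

/-- the state at time `t` is number `p` -/
def vS (t p : ℕ) : Vr := (0, (t, (p, 0)))
/-- stack `i` has more than `j` entries at time `t` -/
def vE (t i j : ℕ) : Vr := (1, (t, (i, j)))
/-- entry `j` of stack `i` at time `t` -/
def vW (t i j : ℕ) : Vr := (2, (t, (i, j)))

/-- The clause `(⋀ cs) → l`. -/
def imp (cs : List (Bool × Vr)) (l : Bool × Vr) : List (Bool × Vr) :=
  cs.map (fun c => (!c.1, c.2)) ++ [l]

/-- If `s` then `a = b`. -/
def eqv (s a b : Vr) : List (List (Bool × Vr)) :=
  [imp [(true, s), (true, a)] (true, b), imp [(true, s), (false, a)] (false, b)]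

theorem holds_imp {σ : Vr → Bool} {cs : List (Bool × Vr)} {l : Bool × Vr} :
    Holds σ (imp cs l) ↔ ((∀ c ∈ cs, σ c.2 = c.1) → σ l.2 = l.1) := by
  unfold Holds imp
  constructor
  · rintro ⟨x, hx, h⟩ H
    rcases List.mem_append.mp hx with hx | hx
    · obtain ⟨c, hc, rfl⟩ := List.mem_map.mp hx
      have := H c hc
      simp only at h
      rw [this] at h
      cases hb : c.1 <;> simp [hb] at h
    · rw [List.mem_singleton] at hx
      rwa [hx] at h
  · intro H
    by_cases h : ∀ c ∈ cs, σ c.2 = c.1
    · exact ⟨l, by simp, H h⟩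
    · push Not at h
      obtain ⟨c, hc, hne⟩ := h
      refine ⟨(!c.1, c.2), List.mem_append_left _ (List.mem_map.mpr ⟨c, hc, rfl⟩), ?_⟩
      simp only
      cases hb : c.1 <;> cases hs : σ c.2 <;> simp_all

theorem holds_eqv {σ : Vr → Bool} {s a b : Vr} :
    (∀ C ∈ eqv s a b, Holds σ C) ↔ (σ s = true → σ b = σ a) := by
  simp only [eqv, List.mem_cons, List.not_mem_nil, or_false, forall_eq_or_imp, forall_eq,
    holds_imp]
  constructor
  · rintro ⟨h1, h2⟩ hs
    cases ha : σ a with
    | true => exact h1 (by simp [hs, ha])
    | false => exact h2 (by simp [hs, ha])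
  · intro h
    constructor
    · rintro ⟨h1, h2⟩
      rw [h h1, h2]
    · rintro ⟨h1, h2⟩
      rw [h h1, h2]

/-- The effect of an instruction on one stack. -/
inductive Mv
  | same
  | push (b : Bool)
  | pop

/-- The new content of the stack. -/
def Mv.app : Mv → List Bool → List Bool
  | .same, l => l
  | .push b, l => b :: l
  | .pop, l => l.tail

/-- The clauses for the change of stack number `i` from time `t` to time `t + 1`, if `s`. -/
def cellC (J : ℕ) (s : Vr) (t i : ℕ) : Mv → List (List (Bool × Vr))
  | .same => (List.range (J + 1)).flatMap fun j =>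
      eqv s (vE t i j) (vE (t + 1) i j) ++ eqv s (vW t i j) (vW (t + 1) i j)
  | .push b => [imp [(true, s)] (true, vE (t + 1) i 0), imp [(true, s)] (b, vW (t + 1) i 0)] ++
      (List.range J).flatMap fun j =>
        eqv s (vE t i j) (vE (t + 1) i (j + 1)) ++ eqv s (vW t i j) (vW (t + 1) i (j + 1))
  | .pop => [imp [(true, s)] (false, vE (t + 1) i J), imp [(true, s)] (false, vW (t + 1) i J)] ++
      (List.range J).flatMap fun j =>
        eqv s (vE t i (j + 1)) (vE (t + 1) i j) ++ eqv s (vW t i (j + 1)) (vW (t + 1) i j)

/-- The variables describe the stack content `l`. -/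
def Cells (σ : Vr → Bool) (J t i : ℕ) (l : List Bool) : Prop :=
  ∀ j ≤ J, σ (vE t i j) = decide (j < l.length) ∧ σ (vW t i j) = l.getD j false

theorem forall_mem_append' {α : Type} {l l' : List α} {p : α → Prop} :
    (∀ x ∈ l ++ l', p x) ↔ (∀ x ∈ l, p x) ∧ ∀ x ∈ l', p x := by
  simp only [List.mem_append]
  exact ⟨fun h => ⟨fun x hx => h x (Or.inl hx), fun x hx => h x (Or.inr hx)⟩,
    fun h x hx => hx.elim (h.1 x) (h.2 x)⟩

theorem forall_mem_flatMap' {α β : Type} {l : List α} {f : α → List β} {p : β → Prop} :
    (∀ x ∈ l.flatMap f, p x) ↔ ∀ a ∈ l, ∀ x ∈ f a, p x := by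
  simp only [List.mem_flatMap]
  exact ⟨fun h a ha x hx => h x ⟨a, ha, hx⟩, fun h x ⟨a, ha, hx⟩ => h a ha x hx⟩

theorem cells_step {σ : Vr → Bool} {J t i : ℕ} {s : Vr} {mv : Mv} {l : List Bool}
    (h : ∀ C ∈ cellC J s t i mv, Holds σ C) (hs : σ s = true) (hl : Cells σ J t i l)
    (hlen : (mv.app l).length ≤ J) : Cells σ J (t + 1) i (mv.app l) := by
  cases mv with
  | same =>
    intro j hj
    simp only [cellC, forall_mem_flatMap', forall_mem_append', holds_eqv, List.mem_range] at h
    obtain ⟨h1, h2⟩ := h j (by omega)
    rw [h1 hs, h2 hs]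
    exact hl j hj
  | push b =>
    intro j hj
    simp only [cellC, forall_mem_flatMap', forall_mem_append', holds_eqv, List.mem_range,
      List.mem_cons, List.not_mem_nil, or_false, forall_eq_or_imp, forall_eq, holds_imp] at h
    obtain ⟨⟨h1, h2⟩, h3⟩ := h
    cases j with
    | zero =>
      simp only [Mv.app, List.length_cons, List.getD_cons_zero]
      exact ⟨by rw [h1 hs]; simp, h2 hs⟩
    | succ j =>
      obtain ⟨h4, h5⟩ := h3 j (by omega)
      rw [h4 hs, h5 hs]
      obtain ⟨h6, h7⟩ := hl j (by omega)
      simp only [Mv.app, List.length_cons, List.getD_cons_succ, h6, h7, and_true,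
        decide_eq_decide]
      omega
  | pop =>
    intro j hj
    simp only [cellC, forall_mem_flatMap', forall_mem_append', holds_eqv, List.mem_range,
      List.mem_cons, List.not_mem_nil, or_false, forall_eq_or_imp, forall_eq, holds_imp] at h
    obtain ⟨⟨h1, h2⟩, h3⟩ := h
    simp only [Mv.app] at hlen ⊢
    rcases Nat.lt_or_ge j J with hjJ | hjJ
    · obtain ⟨h4, h5⟩ := h3 j hjJ
      rw [h4 hs, h5 hs]
      obtain ⟨h6, h7⟩ := hl (j + 1) (by omega)
      rw [h6, h7]
      cases l with
      | nil => simp
      | cons b l => simp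
    · obtain rfl : j = J := by omega
      rw [h1 hs, h2 hs]
      constructor
      · symm
        rw [decide_eq_false_iff_not]
        omega
      · rw [List.getD_eq_default _ _ hlen]

theorem cells_holds {σ : Vr → Bool} {J t i : ℕ} {s : Vr} {mv : Mv} {l : List Bool}
    (hs : σ s = true → Cells σ J t i l ∧ Cells σ J (t + 1) i (mv.app l) ∧
      (mv.app l).length ≤ J) : ∀ C ∈ cellC J s t i mv, Holds σ C := by
  cases mv with
  | same =>
    simp only [cellC, forall_mem_flatMap', forall_mem_append', holds_eqv, List.mem_range]
    intro j hj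
    refine ⟨fun h => ?_, fun h => ?_⟩
    · obtain ⟨h1, h2, h3⟩ := hs h
      rw [(h1 j (by omega)).1, (h2 j (by omega)).1]; rfl
    · obtain ⟨h1, h2, h3⟩ := hs h
      rw [(h1 j (by omega)).2, (h2 j (by omega)).2]; rfl
  | push b =>
    simp only [cellC, forall_mem_flatMap', forall_mem_append', holds_eqv, List.mem_range,
      List.mem_cons, List.not_mem_nil, or_false, forall_eq_or_imp, forall_eq, holds_imp]
    refine ⟨⟨fun h => ?_, fun h => ?_⟩, fun j hj => ⟨fun h => ?_, fun h => ?_⟩⟩
    · obtain ⟨h1, h2, h3⟩ := hs h
      rw [(h2 0 (by omega)).1]; simp [Mv.app]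
    · obtain ⟨h1, h2, h3⟩ := hs h
      rw [(h2 0 (by omega)).2]; simp [Mv.app]
    · obtain ⟨h1, h2, h3⟩ := hs h
      rw [(h1 j (by omega)).1, (h2 (j + 1) (by omega)).1]; simp [Mv.app]
    · obtain ⟨h1, h2, h3⟩ := hs h
      rw [(h1 j (by omega)).2, (h2 (j + 1) (by omega)).2]; simp [Mv.app]
  | pop =>
    simp only [cellC, forall_mem_flatMap', forall_mem_append', holds_eqv, List.mem_range,
      List.mem_cons, List.not_mem_nil, or_false, forall_eq_or_imp, forall_eq, holds_imp]
    refine ⟨⟨fun h => ?_, fun h => ?_⟩, fun j hj => ⟨fun h => ?_, fun h => ?_⟩⟩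
    · obtain ⟨h1, h2, h3⟩ := hs h
      rw [(h2 J le_rfl).1, decide_eq_false_iff_not]
      omega
    · obtain ⟨h1, h2, h3⟩ := hs h
      rw [(h2 J le_rfl).2, List.getD_eq_default _ _ h3]
    · obtain ⟨h1, h2, h3⟩ := hs h
      rw [(h1 (j + 1) (by omega)).1, (h2 j (by omega)).1]
      cases l <;> simp [Mv.app]
    · obtain ⟨h1, h2, h3⟩ := hs h
      rw [(h1 (j + 1) (by omega)).2, (h2 j (by omega)).2]
      cases l <;> simp [Mv.app]

/-! ### The machine -/

section machine

variable {ι P : Type} [DecidableEq ι] (mch : P → Instr ι (Option P))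

/-- The effect of the instruction at position `p` on stack `i`. -/
def mv (p : Option P) (i : ι) : Mv :=
  match p with
  | none => .same
  | some p => match mch p with
    | .nop _ => .same
    | .push i' b _ => if i = i' then .push b else .same
    | .pop i' _ => if i = i' then .pop else .same

theorem fstep_snd (c : Option P × Store ι) (i : ι) :
    (fstep mch c).2 i = (mv mch c.1 i).app (c.2 i) := by
  obtain ⟨p, S⟩ := c
  cases p with
  | none => rfl
  | some p =>
    rw [fstep_some]
    simp only [mv]
    cases mch p with
    | nop q => rfl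
    | push j b q =>
      simp only [Instr.exec]
      by_cases h : i = j
      · subst h; simp [Mv.app]
      · simp [h, Mv.app]
    | pop j g =>
      simp only [Instr.exec]
      by_cases h : i = j
      · subst h; simp [Mv.app]
      · simp [h, Mv.app]

variable (eP : Option P → ℕ) (eI : ι → ℕ)

/-- The clauses for the change of the state, from position `p` at time `t`. -/
def stateC (t : ℕ) (p : Option P) : List (List (Bool × Vr)) :=
  match p with
  | none => [imp [(true, vS t (eP none))] (true, vS (t + 1) (eP none))]
  | some p => match mch p with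
    | .nop q => [imp [(true, vS t (eP (some p)))] (true, vS (t + 1) (eP q))]
    | .push _ _ q => [imp [(true, vS t (eP (some p)))] (true, vS (t + 1) (eP q))]
    | .pop i g =>
      [imp [(true, vS t (eP (some p))), (false, vE t (eI i) 0)] (true, vS (t + 1) (eP (g none))),
       imp [(true, vS t (eP (some p))), (true, vE t (eI i) 0), (false, vW t (eI i) 0)]
        (true, vS (t + 1) (eP (g (some false)))),
       imp [(true, vS t (eP (some p))), (true, vE t (eI i) 0), (true, vW t (eI i) 0)]
        (true, vS (t + 1) (eP (g (some true))))]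

theorem state_step {σ : Vr → Bool} {J t : ℕ} {c : Option P × Store ι}
    (h : ∀ C ∈ stateC mch eP eI t c.1, Holds σ C) (hs : σ (vS t (eP c.1)) = true)
    (hl : ∀ i, Cells σ J t (eI i) (c.2 i)) : σ (vS (t + 1) (eP (fstep mch c).1)) = true := by
  obtain ⟨p, S⟩ := c
  cases p with
  | none =>
    simp only [stateC, List.mem_cons, List.not_mem_nil, or_false, forall_eq, holds_imp] at h
    exact h hs
  | some p =>
    rw [fstep_some]
    simp only [stateC] at h
    cases hm : mch p with
    | nop q =>
      simp only [hm, List.mem_cons, List.not_mem_nil, or_false, forall_eq, holds_imp] at h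
      exact h hs
    | push j b q =>
      simp only [hm, List.mem_cons, List.not_mem_nil, or_false, forall_eq, holds_imp] at h
      exact h hs
    | pop j g =>
      simp only [hm, List.mem_cons, List.not_mem_nil, or_false, forall_eq_or_imp, forall_eq,
        holds_imp] at h
      obtain ⟨h1, h2, h3⟩ := h
      obtain ⟨h4, h5⟩ := hl j 0 (Nat.zero_le _)
      simp only [Instr.exec]
      cases hS : S j with
      | nil =>
        simp only [hS] at h4 h5
        exact h1 ⟨hs, by simpa using h4⟩
      | cons b l =>
        simp only [hS] at h4 h5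
        cases b with
        | false => exact h2 ⟨hs, by simpa using h4, by simpa using h5⟩
        | true => exact h3 ⟨hs, by simpa using h4, by simpa using h5⟩

theorem state_holds {σ : Vr → Bool} {J t : ℕ} {p : Option P}
    (hs : σ (vS t (eP p)) = true → ∃ S : Store ι, (∀ i, Cells σ J t (eI i) (S i)) ∧
      σ (vS (t + 1) (eP (fstep mch (p, S)).1)) = true) :
    ∀ C ∈ stateC mch eP eI t p, Holds σ C := by
  cases p with
  | none =>
    simp only [stateC, List.mem_cons, List.not_mem_nil, or_false, forall_eq, holds_imp]
    intro h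
    obtain ⟨S, h1, h2⟩ := hs h
    exact h2
  | some p =>
    simp only [fstep_some] at hs
    simp only [stateC]
    cases hm : mch p with
    | nop q =>
      simp only [hm] at hs
      simp only [List.mem_cons, List.not_mem_nil, or_false, forall_eq, holds_imp]
      intro h
      obtain ⟨S, h1, h2⟩ := hs h
      exact h2
    | push j b q =>
      simp only [hm] at hs
      simp only [List.mem_cons, List.not_mem_nil, or_false, forall_eq, holds_imp]
      intro h
      obtain ⟨S, h1, h2⟩ := hs h
      exact h2
    | pop j g =>
      simp only [hm, Instr.exec] at hs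
      simp only [List.mem_cons, List.not_mem_nil, or_false, forall_eq_or_imp, forall_eq,
        holds_imp]
      refine ⟨fun h => ?_, fun h => ?_, fun h => ?_⟩
      · obtain ⟨S, h1, h2⟩ := hs h.1
        obtain ⟨h4, h5⟩ := h1 j 0 (Nat.zero_le _)
        cases hS : S j with
        | nil => simpa [hS] using h2
        | cons b l =>
          rw [h.2, hS] at h4
          simp at h4
      · obtain ⟨S, h1, h2⟩ := hs h.1
        obtain ⟨h4, h5⟩ := h1 j 0 (Nat.zero_le _)
        cases hS : S j with
        | nil =>
          rw [h.2.1, hS] at h4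
          simp at h4
        | cons b l =>
          rw [h.2.2, hS] at h5
          simp only [List.getD_cons_zero] at h5
          subst h5
          simpa [hS] using h2
      · obtain ⟨S, h1, h2⟩ := hs h.1
        obtain ⟨h4, h5⟩ := h1 j 0 (Nat.zero_le _)
        cases hS : S j with
        | nil =>
          rw [h.2.1, hS] at h4
          simp at h4
        | cons b l =>
          rw [h.2.2, hS] at h5
          simp only [List.getD_cons_zero] at h5
          subst h5
          simpa [hS] using h2

variable (lP : List P) (lI : List ι)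

/-- All clauses for the step from time `t` to time `t + 1`. -/
def transC (J t : ℕ) : List (List (Bool × Vr)) :=
  (none :: lP.map some).flatMap fun p =>
    stateC mch eP eI t p ++ lI.flatMap fun i => cellC J (vS t (eP p)) t (eI i) (mv mch p i)

/-- The clauses for time `0`: the stack `io` contains `N` free bits on top of `K`. -/
def initC (io : ι) (p0 : P) (J N : ℕ) (K : List Bool) : List (List (Bool × Vr)) :=
  [(true, vS 0 (eP (some p0)))] ::
  ((List.range N).map (fun j => [(true, vE 0 (eI io) j)]) ++
  ((List.range K.length).flatMap (fun j =>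
    [[(true, vE 0 (eI io) (N + j))], [(K.getD j false, vW 0 (eI io) (N + j))]]) ++
  ((List.range (J + 1 - (N + K.length))).flatMap (fun j =>
    [[(false, vE 0 (eI io) (N + K.length + j))], [(false, vW 0 (eI io) (N + K.length + j))]]) ++
  lI.flatMap (fun i => if i = io then [] else (List.range (J + 1)).flatMap fun j =>
    [[(false, vE 0 (eI i) j)], [(false, vW 0 (eI i) j)]]))))

/-- The tableau: the machine, started on `N` free bits on top of `K`, has the bit `true` on top
of stack `io` at time `T`. -/
def tab (io : ι) (p0 : P) (J T N : ℕ) (K : List Bool) : List (List (Bool × Vr)) :=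
  initC eP eI lI io p0 J N K ++ ((List.range T).flatMap (transC mch eP eI lP lI J) ++
    [[(true, vE T (eI io) 0)], [(true, vW T (eI io) 0)]])

theorem holds_unit {σ : Vr → Bool} {b : Bool} {v : Vr} : Holds σ [(b, v)] ↔ σ v = b := by
  simp [Holds]

theorem tab_sound (hlP : ∀ p, p ∈ lP) (hlI : ∀ i, i ∈ lI) (io : ι) (p0 : P) (J T N : ℕ)
    (K : List Bool) (hJ : ∀ u : List Bool, u.length = N → ∀ t ≤ T, ∀ i,
      (((fstep mch)^[t] (some p0, one io (u ++ K))).2 i).length ≤ J)
    {σ : Vr → Bool} (h : ∀ C ∈ tab mch eP eI lP lI io p0 J T N K, Holds σ C) :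
    ∃ u : List Bool, u.length = N ∧
      (((fstep mch)^[T] (some p0, one io (u ++ K))).2 io).head? = some true := by
  obtain ⟨u, hu⟩ : ∃ u, u = (List.range N).map (fun j => σ (vW 0 (eI io) j)) := ⟨_, rfl⟩
  have hlen : u.length = N := by rw [hu]; simp
  refine ⟨u, hlen, ?_⟩
  simp only [tab, initC, List.cons_append, List.append_assoc, List.mem_cons,
    forall_eq_or_imp, forall_mem_append', holds_unit, List.not_mem_nil, or_false,
    forall_eq] at h
  obtain ⟨h0, h1, h2, h3, h4, h5, h6, h7⟩ := h
  have hcell : ∀ i, Cells σ J 0 (eI i) (one io (u ++ K) i) := by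
    intro i j hj
    by_cases hi : i = io
    · subst hi
      simp only [one, if_true]
      rcases Nat.lt_or_ge j N with hjN | hjN
      · have := h1 _ (List.mem_map.mpr ⟨j, List.mem_range.mpr hjN, rfl⟩)
        rw [holds_unit] at this
        rw [this]
        refine ⟨?_, ?_⟩
        · symm
          rw [decide_eq_true_iff, List.length_append]
          omega
        · rw [List.getD_append _ _ _ _ (by omega), hu]
          rw [List.getD_eq_getElem _ _ (by simpa using hjN)]
          simp
      · rcases Nat.lt_or_ge j (N + K.length) with hjK | hjK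
        · rw [forall_mem_flatMap'] at h2
          have := h2 (j - N) (List.mem_range.mpr (by omega))
          simp only [List.mem_cons, forall_eq_or_imp, holds_unit, List.not_mem_nil, or_false,
            forall_eq, show N + (j - N) = j by omega] at this
          rw [this.1, this.2]
          refine ⟨?_, ?_⟩
          · symm
            rw [decide_eq_true_iff, List.length_append]
            omega
          · rw [List.getD_append_right _ _ _ _ (by omega), hlen]
        · rw [forall_mem_flatMap'] at h3
          have := h3 (j - (N + K.length)) (List.mem_range.mpr (by omega))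
          simp only [List.mem_cons, forall_eq_or_imp, holds_unit, List.not_mem_nil, or_false,
            forall_eq, show N + K.length + (j - (N + K.length)) = j by omega] at this
          rw [this.1, this.2]
          refine ⟨?_, ?_⟩
          · symm
            rw [decide_eq_false_iff_not, List.length_append]
            omega
          · rw [List.getD_eq_default]
            rw [List.length_append]
            omega
    · rw [forall_mem_flatMap'] at h4
      have := h4 i (hlI i)
      rw [if_neg hi, forall_mem_flatMap'] at this
      have := this j (List.mem_range.mpr (by omega))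
      simp only [List.mem_cons, forall_eq_or_imp, holds_unit, List.not_mem_nil, or_false,
        forall_eq] at this
      rw [this.1, this.2]
      simp [one, hi]
  have key : ∀ t ≤ T, σ (vS t (eP ((fstep mch)^[t] (some p0, one io (u ++ K))).1)) = true ∧
      ∀ i, Cells σ J t (eI i) (((fstep mch)^[t] (some p0, one io (u ++ K))).2 i) := by
    intro t
    induction t with
    | zero => intro _; exact ⟨h0, hcell⟩
    | succ t ih =>
      intro ht
      obtain ⟨g1, g2⟩ := ih (by omega)
      rw [Function.iterate_succ_apply']
      generalize hc : (fstep mch)^[t] (some p0, one io (u ++ K)) = c at g1 g2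
      rw [forall_mem_flatMap'] at h5
      have h8 := h5 t (List.mem_range.mpr (by omega))
      rw [transC, forall_mem_flatMap'] at h8
      have h9 := h8 c.1 (by
        cases hc1 : c.1 with
        | none => simp
        | some p => simp [hlP p])
      rw [forall_mem_append', forall_mem_flatMap'] at h9
      refine ⟨state_step mch eP eI (J := J) h9.1 g1 g2, ?_⟩
      intro i
      rw [fstep_snd]
      refine cells_step (h9.2 i (hlI i)) g1 (g2 i) ?_
      rw [← fstep_snd, ← hc, ← Function.iterate_succ_apply' (fstep mch)]
      exact hJ u hlen (t + 1) ht i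
  obtain ⟨-, g2⟩ := key T le_rfl
  obtain ⟨g3, g4⟩ := g2 io 0 (Nat.zero_le _)
  rw [h6] at g3
  rw [h7] at g4
  cases hS : ((fstep mch)^[T] (some p0, one io (u ++ K))).2 io with
  | nil => rw [hS] at g3; simp at g3
  | cons b l =>
    rw [hS] at g4
    simp only [List.getD_cons_zero] at g4
    simp [← g4]

open Classical in
theorem tab_complete (heP : Function.Injective eP) (heI : Function.Injective eI)
    (io : ι) (p0 : P) (J T N : ℕ) (K : List Bool) (u : List Bool) (hu : u.length = N)
    (hJ : ∀ t ≤ T, ∀ i, (((fstep mch)^[t] (some p0, one io (u ++ K))).2 i).length ≤ J)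
    (hT : (((fstep mch)^[T] (some p0, one io (u ++ K))).2 io).head? = some true) :
    Sat (tab mch eP eI lP lI io p0 J T N K) := by
  let c : ℕ → Option P × Store ι := fun t => (fstep mch)^[t] (some p0, one io (u ++ K))
  let σ : Vr → Bool := fun v =>
    if v.1 = 0 then decide (eP (c v.2.1).1 = v.2.2.1)
    else if v.1 = 1 then decide (∃ i, eI i = v.2.2.1 ∧ v.2.2.2 < ((c v.2.1).2 i).length)
    else decide (∃ i, eI i = v.2.2.1 ∧ ((c v.2.1).2 i).getD v.2.2.2 false = true)
  have hσS : ∀ t p, σ (vS t (eP p)) = true ↔ (c t).1 = p := by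
    intro t p
    simp only [σ, vS, if_true, decide_eq_true_eq]
    exact heP.eq_iff
  have hcells : ∀ t J' i, Cells σ J' t (eI i) ((c t).2 i) := by
    intro t J' i j hj
    constructor
    · simp only [σ, vE, one_ne_zero, if_false, if_true, decide_eq_decide]
      constructor
      · rintro ⟨i', h1, h2⟩
        rwa [heI h1] at h2
      · intro h
        exact ⟨i, rfl, h⟩
    · simp only [σ, vW, OfNat.ofNat_ne_zero, if_false, OfNat.ofNat_ne_one]
      rw [Bool.eq_iff_iff, decide_eq_true_eq]
      constructor
      · rintro ⟨i', h1, h2⟩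
        rwa [heI h1] at h2
      · intro h
        exact ⟨i, rfl, h⟩
  have hc0 : c 0 = (some p0, one io (u ++ K)) := rfl
  have hcs : ∀ t, c (t + 1) = fstep mch (c t) := fun t => Function.iterate_succ_apply' _ _ _
  refine ⟨σ, ?_⟩
  simp only [tab, initC, List.cons_append, List.append_assoc, List.mem_cons,
    forall_eq_or_imp, forall_mem_append', holds_unit, List.not_mem_nil, or_false,
    forall_eq]
  have hone : (c 0).2 io = u ++ K := by rw [hc0]; simp [one]
  refine ⟨?_, ?_, ?_, ?_, ?_, ?_, ?_, ?_⟩
  · rw [hσS]; rfl
  · intro C hC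
    obtain ⟨j, hj, rfl⟩ := List.mem_map.mp hC
    rw [List.mem_range] at hj
    rw [holds_unit, (hcells 0 j io j le_rfl).1, hone, decide_eq_true_iff,
      List.length_append]
    omega
  · rw [forall_mem_flatMap']
    intro j hj
    rw [List.mem_range] at hj
    simp only [List.mem_cons, forall_eq_or_imp, holds_unit, List.not_mem_nil, or_false,
      forall_eq]
    rw [(hcells 0 _ io (N + j) le_rfl).1, (hcells 0 _ io (N + j) le_rfl).2, hone]
    refine ⟨?_, ?_⟩
    · rw [decide_eq_true_iff, List.length_append]
      omega
    · rw [List.getD_append_right _ _ _ _ (by omega), hu]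
      congr 1
      omega
  · rw [forall_mem_flatMap']
    intro j hj
    rw [List.mem_range] at hj
    simp only [List.mem_cons, forall_eq_or_imp, holds_unit, List.not_mem_nil, or_false,
      forall_eq]
    rw [(hcells 0 _ io (N + K.length + j) le_rfl).1, (hcells 0 _ io (N + K.length + j) le_rfl).2,
      hone]
    refine ⟨?_, ?_⟩
    · rw [decide_eq_false_iff_not, List.length_append]
      omega
    · rw [List.getD_eq_default]
      rw [List.length_append]
      omega
  · rw [forall_mem_flatMap']
    intro i _
    by_cases hi : i = io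
    · simp [hi]
    · rw [if_neg hi, forall_mem_flatMap']
      intro j hj
      simp only [List.mem_cons, forall_eq_or_imp, holds_unit, List.not_mem_nil, or_false,
        forall_eq]
      rw [(hcells 0 _ i j le_rfl).1, (hcells 0 _ i j le_rfl).2, hc0]
      simp [one, hi]
  · rw [forall_mem_flatMap']
    intro t ht
    rw [List.mem_range] at ht
    rw [transC, forall_mem_flatMap']
    intro p _
    rw [forall_mem_append', forall_mem_flatMap']
    constructor
    · refine state_holds (J := J) mch eP eI ?_
      intro hs
      rw [hσS] at hs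
      refine ⟨(c t).2, fun i => hcells t J i, ?_⟩
      rw [hσS, hcs, ← hs]
    · intro i _
      refine cells_holds (l := (c t).2 i) ?_
      intro hs
      rw [hσS] at hs
      rw [← hs, ← fstep_snd, ← hcs]
      exact ⟨hcells t J i, hcells (t + 1) J i, hJ (t + 1) (by omega) i⟩
  · rw [(hcells T 0 io 0 le_rfl).1, decide_eq_true_iff]
    change (((c T).2 io).head? = some true) at hT
    cases hS : (c T).2 io with
    | nil => rw [hS] at hT; simp at hT
    | cons b l => simp
  · rw [(hcells T 0 io 0 le_rfl).2]
    change (((c T).2 io).head? = some true) at hT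
    cases hS : (c T).2 io with
    | nil => rw [hS] at hT; simp at hT
    | cons b l => rw [hS] at hT; simpa using hT

end machine

end Pool.Agent.H64.Cook
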