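import Pool.Agent.H64.Cook.Defs
import Pool.Agent.H64.Cook.Tableau

/-!
# The Cook–Levin theorem
-/

namespace Pool.Agent.H64.Cook

open Pool.Agent.PPS

section pt

variable {m : Bool} {α : Type} [Rep α]

@[fun_prop]
theorem PT.vS' {t p : α → ℕ} (ht : PT m t) (hp : PT m p) : PT m (fun a => vS (t a) (p a)) := by
  unfold vS; fun_prop

@[fun_prop]
theorem PT.vE' {t i j : α → ℕ} (ht : PT m t) (hi : PT m i) (hj : PT m j) :
    PT m (fun a => vE (t a) (i a) (j a)) := by
  unfold vE; fun_prop

@[fun_prop]
theorem PT.vW' {t i j : α → ℕ} (ht : PT m t) (hi : PT m i) (hj : PT m j) :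
    PT m (fun a => vW (t a) (i a) (j a)) := by
  unfold vW; fun_prop

@[fun_prop]
theorem PT.eqv' {s a b : α → Vr} (hs : PT m s) (ha : PT m a) (hb : PT m b) :
    PT m (fun x => eqv (s x) (a x) (b x)) := by
  simp only [eqv, imp, List.map_cons, List.map_nil, List.cons_append, List.nil_append]
  fun_prop

theorem PT.cellC' {J t i : α → ℕ} {s : α → Vr} (hJ : PT m J) (ht : PT m t) (hi : PT m i)
    (hs : PT m s) (mv : Mv) : PT m (fun a => cellC (J a) (s a) (t a) (i a) mv) := by
  cases mv with
  | same =>
    have := PT.flatMap' (m := m) (l := fun a => List.range (J a + 1))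
      (f := fun z : α × ℕ => eqv (s z.1) (vE (t z.1) (i z.1) z.2) (vE (t z.1 + 1) (i z.1) z.2) ++
        eqv (s z.1) (vW (t z.1) (i z.1) z.2) (vW (t z.1 + 1) (i z.1) z.2))
      (by fun_prop) (by fun_prop)
    exact this
  | push b =>
    have := PT.flatMap' (m := m) (l := fun a => List.range (J a))
      (f := fun z : α × ℕ => eqv (s z.1) (vE (t z.1) (i z.1) z.2)
        (vE (t z.1 + 1) (i z.1) (z.2 + 1)) ++
        eqv (s z.1) (vW (t z.1) (i z.1) z.2) (vW (t z.1 + 1) (i z.1) (z.2 + 1)))
      (by fun_prop) (by fun_prop)
    refine PT.append' ?_ this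
    simp only [imp, List.map_cons, List.map_nil, List.cons_append, List.nil_append]
    fun_prop
  | pop =>
    have := PT.flatMap' (m := m) (l := fun a => List.range (J a))
      (f := fun z : α × ℕ => eqv (s z.1) (vE (t z.1) (i z.1) (z.2 + 1))
        (vE (t z.1 + 1) (i z.1) z.2) ++
        eqv (s z.1) (vW (t z.1) (i z.1) (z.2 + 1)) (vW (t z.1 + 1) (i z.1) z.2))
      (by fun_prop) (by fun_prop)
    refine PT.append' ?_ this
    simp only [imp, List.map_cons, List.map_nil, List.cons_append, List.nil_append]
    fun_prop

variable {ι P : Type} [DecidableEq ι] (mch : P → Instr ι (Option P)) (eP : Option P → ℕ)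
  (eI : ι → ℕ) (lP : List P) (lI : List ι)

omit [DecidableEq ι] in
theorem PT.stateC' {t : α → ℕ} (ht : PT m t) (p : Option P) :
    PT m (fun a => stateC mch eP eI (t a) p) := by
  cases p with
  | none =>
    simp only [stateC, imp, List.map_cons, List.map_nil, List.cons_append, List.nil_append]
    fun_prop
  | some p =>
    simp only [stateC]
    cases mch p <;>
    · simp only [imp, List.map_cons, List.map_nil, List.cons_append, List.nil_append]
      fun_prop

theorem PT.transC' {J t : α → ℕ} (hJ : PT m J) (ht : PT m t) :
    PT m (fun a => transC mch eP eI lP lI (J a) (t a)) := by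
  unfold transC
  refine PT.flatMapConst _ (fun p => ?_)
  refine PT.append' (PT.stateC' mch eP eI ht p) ?_
  refine PT.flatMapConst _ (fun i => ?_)
  exact PT.cellC' hJ ht (PT.const' _) (by fun_prop) _

theorem PT.initC' (io : ι) (p0 : P) {J N : α → ℕ} {K : α → List Bool} (hJ : PT m J)
    (hN : PT m N) (hK : PT m K) :
    PT m (fun a => initC eP eI lI io p0 (J a) (N a) (K a)) := by
  unfold initC
  have h1 := PT.map' (m := m) (l := fun a => List.range (N a))
    (f := fun z : α × ℕ => [(true, vE 0 (eI io) z.2)]) (by fun_prop) (by fun_prop)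
  have h2 := PT.flatMap' (m := m) (l := fun a => List.range (K a).length)
    (f := fun z : α × ℕ => [[(true, vE 0 (eI io) (N z.1 + z.2))],
      [((K z.1).getD z.2 false, vW 0 (eI io) (N z.1 + z.2))]]) (by fun_prop) (by fun_prop)
  have h3 := PT.flatMap' (m := m) (l := fun a => List.range (J a + 1 - (N a + (K a).length)))
    (f := fun z : α × ℕ => [[(false, vE 0 (eI io) (N z.1 + (K z.1).length + z.2))],
      [(false, vW 0 (eI io) (N z.1 + (K z.1).length + z.2))]]) (by fun_prop) (by fun_prop)
  have h4 : PT m (fun a => lI.flatMap (fun i => if i = io then [] else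
      (List.range (J a + 1)).flatMap fun j =>
        [[(false, vE 0 (eI i) j)], [(false, vW 0 (eI i) j)]])) := by
    refine PT.flatMapConst _ (fun i => ?_)
    by_cases hi : i = io
    · simp only [hi, if_true]
      exact PT.const' _
    · simp only [hi, if_false]
      exact PT.flatMap' (m := m) (l := fun a => List.range (J a + 1))
        (f := fun z : α × ℕ => [[(false, vE 0 (eI i) z.2)], [(false, vW 0 (eI i) z.2)]])
        (by fun_prop) (by fun_prop)
  exact PT.cons' (PT.const' _) (h1.append' (h2.append' (h3.append' h4)))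

theorem PT.tab' (io : ι) (p0 : P) {J T N : α → ℕ} {K : α → List Bool} (hJ : PT m J)
    (hT : PT m T) (hN : PT m N) (hK : PT m K) :
    PT m (fun a => tab mch eP eI lP lI io p0 (J a) (T a) (N a) (K a)) := by
  unfold tab
  refine (PT.initC' eP eI lI io p0 hJ hN hK).append' (PT.append' ?_ (by fun_prop))
  exact PT.flatMap' (m := m) (l := fun a => List.range (T a))
    (f := fun z : α × ℕ => transC mch eP eI lP lI (J z.1) z.2) (by fun_prop)
    (PT.transC' mch eP eI lP lI (by fun_prop) (by fun_prop))

end pt

open Classical in
/-- **The Cook–Levin theorem**: every language in `NP` reduces in polynomial time to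
satisfiability. -/
theorem cookLevin {L : Set (List Bool)} (hL : L ∈ NP) :
    ∃ f : List Bool → List (List (Bool × Vr)), PT true f ∧ ∀ x, x ∈ L ↔ Sat (f x) := by
  obtain ⟨V, hV, q, hq⟩ := hL
  rw [mem_P_iff] at hV
  obtain ⟨ι, _, _, c, io, p, hc⟩ := hV.exists_rawBool
  have : Fintype ι := Fintype.ofFinite ι
  have : Fintype c.Pos := Fintype.ofFinite _
  let eP : Option c.Pos → ℕ := fun o => (Fintype.equivFin (Option c.Pos) o : ℕ)
  let eI : ι → ℕ := fun i => (Fintype.equivFin ι i : ℕ)
  have heP : Function.Injective eP := fun a b h =>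
    (Fintype.equivFin (Option c.Pos)).injective (Fin.ext h)
  have heI : Function.Injective eI := fun a b h => (Fintype.equivFin ι).injective (Fin.ext h)
  let lP : List c.Pos := Finset.univ.toList
  let lI : List ι := Finset.univ.toList
  let w : List Bool → List Bool := fun x => x.flatMap (fun b => [true, b]) ++ [false]
  let K : List Bool → List Bool := fun x => (w x).reverse
  let N : List Bool → ℕ := fun x => q.eval x.length
  let T : List Bool → ℕ := fun x => p.eval ((w x).length + N x)
  -- the runs of the machine
  have hpair : ∀ x y, pairW x y = w x ++ y := by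
    intro x y; simp [pairW, w]
  have hrev : ∀ x y, (pairW x y).reverse = y.reverse ++ K x := by
    intro x y; rw [hpair, List.reverse_append]
  have hrun : ∀ x y, y.length = N x →
      (∀ t i, (((fstep c.instr)^[t] (some c.entry, one io (y.reverse ++ K x))).2 i).length ≤
        T x) ∧
      (((fstep c.instr)^[T x] (some c.entry, one io (y.reverse ++ K x))).2 io).head? =
        some (decide (pairW x y ∈ V)) := by
    intro x y hy
    have hlen : (pairW x y).length = (w x).length + N x := by
      rw [hpair, List.length_append, hy]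
    obtain ⟨T', ⟨t, ht, hE⟩, h2, h3⟩ := hc (pairW x y)
    rw [hlen] at hE h2 h3
    have h4 := h3 rfl
    have hF := c.flowRun_of_exec hE (c.embeds_self) (by
      intro i
      unfold one
      split_ifs
      · rw [List.length_reverse, hlen]; exact h2
      · simp)
    rw [hrev] at hF
    obtain ⟨hF1, hF2⟩ := hF
    simp only [id] at hF1 hF2
    have hafter : ∀ k, t ≤ k → (fstep c.instr)^[k] (some c.entry, one io (y.reverse ++ K x)) =
        (none, one io (code (decide (pairW x y ∈ V)))) := by
      intro k hk
      obtain ⟨r, rfl⟩ := Nat.exists_eq_add_of_le hk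
      rw [Nat.add_comm, Function.iterate_add_apply, hF1, fstep_iterate_none]
    refine ⟨fun k i => ?_, ?_⟩
    · rcases Nat.lt_or_ge k t with hk | hk
      · exact hF2 k hk.le i
      · rw [hafter k hk, ← hF1]
        exact hF2 t le_rfl i
    · rw [hafter _ (ht.trans h4)]
      by_cases hx : pairW x y ∈ V
      · simp [one, hx, code_true]
      · simp [one, hx, code_false]
  refine ⟨fun x => tab c.instr eP eI lP lI io c.entry (T x) (T x) (N x) (K x), ?_, ?_⟩
  · have hw : PT true w := by
      have := PT.flatMap' (m := true) (α := List Bool) (l := fun x => x)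
        (f := fun z : List Bool × Bool => [true, z.2]) (by fun_prop) (by fun_prop)
      exact this.append' (PT.const' _)
    have hN : PT true N := PT.polyEval (by fun_prop) q
    have hT : PT true T := PT.polyEval (by fun_prop) p
    exact PT.tab' _ _ _ _ _ _ _ hT hT hN (by fun_prop)
  · intro x
    rw [hq]
    constructor
    · rintro ⟨y, hy, hyV⟩
      obtain ⟨h1, h2⟩ := hrun x y hy
      refine tab_complete c.instr eP eI lP lI heP heI io c.entry _ _ _ _ y.reverse
        (by rw [List.length_reverse]; exact hy) (fun t _ i => h1 t i) ?_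
      rw [h2]
      simp [hyV]
    · rintro ⟨σ, hσ⟩
      obtain ⟨u, hu, hu'⟩ := tab_sound c.instr eP eI lP lI (by simp [lP]) (by simp [lI]) io
        c.entry _ _ _ _ (by
          intro u hu t _ i
          have := (hrun x u.reverse (by rw [List.length_reverse]; exact hu)).1 t i
          rwa [List.reverse_reverse] at this) hσ
      refine ⟨u.reverse, by rw [List.length_reverse]; exact hu, ?_⟩
      have := (hrun x u.reverse (by rw [List.length_reverse]; exact hu)).2
      rw [List.reverse_reverse, hu'] at this
      simpa using this.symm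

end Pool.Agent.H64.Cook
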